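import Pool.Agent.H97Z.JE.Defs

/-! Passing from long averages to short blocks. -/

set_option autoImplicit false

open Filter Finset
open scoped BigOperators Topology

namespace Pool.Agent.H663Z.JE

open Pool.Agent.H97Z.JE

theorem sum_shift_one (f : ℕ → ℂ) (N : ℕ) :
    ∑ x ∈ Icc 1 N, f (x + 1) - ∑ x ∈ Icc 1 N, f x = f (N + 1) - f 1 := by
  induction N with
  | zero => simp
  | succ N ih =>
    rw [sum_Icc_succ_top (by omega), sum_Icc_succ_top (by omega)]
    linear_combination ih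

theorem sum_shift (f : ℕ → ℂ) (hf : ∀ n, ‖f n‖ ≤ 1) (N t : ℕ) :
    ‖∑ x ∈ Icc 1 N, f x - ∑ x ∈ Icc 1 N, f (x + t)‖ ≤ 2 * t := by
  induction t with
  | zero => simp
  | succ t ih =>
    have h := sum_shift_one (fun x => f (x + t)) N
    have e : ∑ x ∈ Icc 1 N, f (x + (t + 1)) = ∑ x ∈ Icc 1 N, f (x + 1 + t) :=
      sum_congr rfl fun x _ => by congr 1; omega
    have e2 : ∑ x ∈ Icc 1 N, f x - ∑ x ∈ Icc 1 N, f (x + (t + 1)) =
        (∑ x ∈ Icc 1 N, f x - ∑ x ∈ Icc 1 N, f (x + t)) - (f (N + 1 + t) - f (1 + t)) := by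
      rw [e]; linear_combination -h
    rw [e2]
    have := norm_sub_le (f (N + 1 + t)) (f (1 + t))
    have := norm_sub_le (∑ x ∈ Icc 1 N, f x - ∑ x ∈ Icc 1 N, f (x + t))
      (f (N + 1 + t) - f (1 + t))
    push_cast
    linarith [hf (N + 1 + t), hf (1 + t)]

theorem norm_expect_le (s : Finset ℕ) (f : ℕ → ℂ) (hf : ∀ n, ‖f n‖ ≤ 1) :
    ‖𝔼 t ∈ s, f t‖ ≤ 1 := by
  rw [expect_eq_sum_div_card, norm_div, Complex.norm_natCast]
  refine div_le_one_of_le₀ ((norm_sum_le _ _).trans ?_) (by positivity)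
  calc ∑ t ∈ s, ‖f t‖ ≤ ∑ _t ∈ s, (1 : ℝ) := sum_le_sum fun t _ => hf t
    _ = _ := by simp

theorem sum_le_blocks (f : ℕ → ℂ) (hf : ∀ n, ‖f n‖ ≤ 1) (N L : ℕ) (hL : 0 < L) :
    ‖∑ x ∈ Icc 1 N, f x‖ ≤ ∑ x ∈ Icc 1 N, ‖𝔼 t ∈ range L, f (x + t)‖ + 2 * L := by
  have hL' : (0 : ℝ) < L := by exact_mod_cast hL
  have hLc : (L : ℂ) ≠ 0 := by exact_mod_cast hL.ne'
  have e : ∑ x ∈ Icc 1 N, f x = ∑ x ∈ Icc 1 N, (𝔼 t ∈ range L, f (x + t)) +
      (∑ t ∈ range L, (∑ x ∈ Icc 1 N, f x - ∑ x ∈ Icc 1 N, f (x + t))) / L := by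
    simp only [expect_eq_sum_div_card, card_range]
    rw [← sum_div, sum_comm, sum_sub_distrib, sum_const, card_range, nsmul_eq_mul]
    field_simp
    ring
  rw [e]
  refine (norm_add_le _ _).trans (add_le_add (norm_sum_le _ _) ?_)
  rw [norm_div, Complex.norm_natCast, div_le_iff₀ hL']
  refine (norm_sum_le _ _).trans ?_
  calc _ ≤ ∑ _t ∈ range L, (2 * L : ℝ) := by
        refine sum_le_sum fun t ht => (sum_shift f hf N t).trans ?_
        have : (t : ℝ) ≤ L := by exact_mod_cast (mem_range.1 ht).le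
        linarith
    _ = _ := by rw [sum_const, card_range, nsmul_eq_mul]; ring

theorem exists_block (f : ℕ → ℂ) (hf : ∀ n, ‖f n‖ ≤ 1) (N L : ℕ) (hL : 0 < L) (δ c : ℝ)
    (hδ : 0 < δ) (hc0 : 0 ≤ c) (hc : c ≤ δ / 8) (hN : 0 < N) (hs : (L : ℝ) / N < δ / 4)
    (h : δ ≤ ‖𝔼 n ∈ Icc 1 N, f n‖) :
    ∃ x : ℕ, c * N ≤ x ∧ x ≤ N ∧ δ / 4 ≤ ‖𝔼 t ∈ range L, f (x + t)‖ := by
  by_contra hcon
  push Not at hcon
  have hN' : (0 : ℝ) < N := by exact_mod_cast hN
  rw [expect_eq_sum_div_card, norm_div, Complex.norm_natCast, Nat.card_Icc, Nat.add_sub_cancel,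
    le_div_iff₀ hN'] at h
  rw [div_lt_iff₀ hN'] at hs
  have h1 := sum_le_blocks f hf N L hL
  have h2 : ∑ x ∈ Icc 1 N, ‖𝔼 t ∈ range L, f (x + t)‖ ≤
      ∑ x ∈ Icc 1 N, (δ / 4 + if x ∈ Icc 1 ⌊c * N⌋₊ then 1 else 0) := by
    refine sum_le_sum fun x hx => ?_
    have hx' := mem_Icc.1 hx
    split_ifs with hm
    · linarith [norm_expect_le (range L) (fun t => f (x + t)) fun t => hf _]
    · have : c * N ≤ x := by
        rw [mem_Icc, not_and] at hm
        have := Nat.lt_floor_add_one (c * N)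
        have h3 : ⌊c * N⌋₊ + 1 ≤ x := by have := hm hx'.1; omega
        have h4 : ((⌊c * N⌋₊ + 1 : ℕ) : ℝ) ≤ x := by exact_mod_cast h3
        push_cast at h4
        linarith
      linarith [hcon x this hx'.2]
  have h3 : ∑ x ∈ Icc 1 N, (if x ∈ Icc 1 ⌊c * N⌋₊ then (1 : ℝ) else 0) ≤ c * N := by
    rw [sum_ite_mem, sum_const, nsmul_eq_mul, mul_one]
    refine le_trans ?_ (Nat.floor_le (by positivity))
    have : #(Icc 1 N ∩ Icc 1 ⌊c * N⌋₊) ≤ ⌊c * N⌋₊ :=
      (card_le_card inter_subset_right).trans (by simp)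
    exact_mod_cast this
  rw [sum_add_distrib, sum_const, Nat.card_Icc, Nat.add_sub_cancel, nsmul_eq_mul] at h2
  have : c * N ≤ δ / 8 * N := mul_le_mul_of_nonneg_right hc hN'.le
  nlinarith

/-- Block length. -/
noncomputable def len (N : ℕ) : ℕ := ⌈(N : ℝ) / Real.log N⌉₊

theorem log_pos_ev : ∀ᶠ N : ℕ in atTop, 0 < Real.log N ∧ (1 : ℝ) ≤ N := by
  filter_upwards [eventually_ge_atTop 2] with N hN
  have : (2 : ℝ) ≤ N := by exact_mod_cast hN
  exact ⟨Real.log_pos (by linarith), by linarith⟩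

theorem len_small : Tendsto (fun N : ℕ => (len N : ℝ) / N) atTop (𝓝 0) := by
  have h1 : Tendsto (fun N : ℕ => (Real.log N)⁻¹) atTop (𝓝 0) :=
    (Real.tendsto_log_atTop.comp tendsto_natCast_atTop_atTop).inv_tendsto_atTop
  have h2 : Tendsto (fun N : ℕ => (N : ℝ)⁻¹) atTop (𝓝 0) := tendsto_inv_atTop_nhds_zero_nat
  have h3 := h1.add h2
  rw [add_zero] at h3
  refine squeeze_zero' (Eventually.of_forall fun N => by positivity) ?_ h3
  filter_upwards [log_pos_ev] with N ⟨hl, hN⟩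
  have : (len N : ℝ) ≤ N / Real.log N + 1 := (Nat.ceil_lt_add_one (by positivity)).le
  rw [div_le_iff₀ (by linarith)]
  refine this.trans (le_of_eq ?_)
  field_simp

theorem blk_of (G : Filter ℕ) (hG : G ≤ atTop) (c : ℝ) (hc : 0 < c) (x : ℕ → ℕ)
    (h1 : ∀ N : ℕ, c * N ≤ x N) (h2 : ∀ N, x N ≤ N) : Blk G x len := by
  have hx : Tendsto x atTop atTop := by
    rw [← tendsto_natCast_atTop_iff (R := ℝ)]
    exact tendsto_atTop_mono h1 (tendsto_natCast_atTop_atTop.const_mul_atTop hc)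
  have hp : ∀ᶠ N in atTop, 0 < len N := by
    filter_upwards [log_pos_ev] with N ⟨hl, hN⟩
    exact Nat.ceil_pos.2 (by positivity)
  refine ⟨hx.mono_left hG, hp.filter_mono hG, Tendsto.mono_left ?_ hG,
    fun η hη => Tendsto.mono_left ?_ hG⟩
  · have h3 := len_small.const_mul c⁻¹
    rw [mul_zero] at h3
    refine squeeze_zero' (Eventually.of_forall fun N => by positivity) ?_ h3
    filter_upwards [log_pos_ev] with N ⟨hl, hN⟩
    have : 0 < c * N := by positivity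
    calc (len N : ℝ) / x N ≤ len N / (c * N) := div_le_div_of_nonneg_left (by positivity) this (h1 N)
      _ = _ := by field_simp
  · have hη' : 0 < min η 1 := lt_min hη one_pos
    have h3 : Tendsto (fun N : ℕ => Real.log N / (N : ℝ) ^ min η 1) atTop (𝓝 0) :=
      (isLittleO_log_rpow_atTop hη').tendsto_div_nhds_zero.comp tendsto_natCast_atTop_atTop
    refine squeeze_zero' (Eventually.of_forall fun N => by positivity) ?_ h3
    filter_upwards [log_pos_ev, hx.eventually_ge_atTop 1] with N ⟨hl, hN⟩ hx1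
    have a1 : (1 : ℝ) ≤ x N := by exact_mod_cast hx1
    have a2 : (x N : ℝ) ≤ N := by exact_mod_cast h2 N
    have a3 : (x N : ℝ) ^ (1 - η) ≤ (N : ℝ) ^ (1 - min η 1) :=
      (Real.rpow_le_rpow_of_exponent_le a1 (by linarith [min_le_left η 1])).trans
        (Real.rpow_le_rpow (by linarith) a2 (by linarith [min_le_right η 1]))
    have a4 : (N : ℝ) / Real.log N ≤ len N := Nat.le_ceil _
    have a5 : (0 : ℝ) < (N : ℝ) ^ min η 1 := by positivity
    calc (x N : ℝ) ^ (1 - η) / len N ≤ (N : ℝ) ^ (1 - min η 1) / (N / Real.log N) :=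
          div_le_div₀ (by positivity) a3 (by positivity) a4
      _ = _ := by
          rw [Real.rpow_sub (by linarith), Real.rpow_one]
          field_simp

theorem thm_blk : S_blk := by
  classical
  intro G hG V hV δ hδ h
  have hc : 0 < min δ 1 / 8 := by have := lt_min hδ one_pos; positivity
  have ex : ∀ N : ℕ, ∃ x : ℕ, min δ 1 / 8 * N ≤ x ∧ x ≤ N ∧
      ((∃ x : ℕ, min δ 1 / 8 * N ≤ x ∧ x ≤ N ∧ δ / 4 ≤ ‖𝔼 t ∈ range (len N), V N (x + t)‖) →
        δ / 4 ≤ ‖𝔼 t ∈ range (len N), V N (x + t)‖) := by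
    intro N
    by_cases hx : ∃ x : ℕ, min δ 1 / 8 * N ≤ x ∧ x ≤ N ∧
        δ / 4 ≤ ‖𝔼 t ∈ range (len N), V N (x + t)‖
    · obtain ⟨x, a, b, c⟩ := hx
      exact ⟨x, a, b, fun _ => c⟩
    · refine ⟨N, ?_, le_rfl, fun h => absurd h hx⟩
      have : (0 : ℝ) ≤ N := by positivity
      nlinarith [min_le_right δ 1]
  choose x h1 h2 h3 using ex
  have hb := blk_of G hG _ hc x h1 h2
  refine ⟨x, len, hb, ?_⟩
  have hs : ∀ᶠ N in atTop, (len N : ℝ) / N < δ / 4 :=
    len_small.eventually (gt_mem_nhds (by positivity))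
  filter_upwards [h, hb.pos, hs.filter_mono hG, (eventually_gt_atTop 0).filter_mono hG]
    with N a b c d
  exact h3 N (exists_block (V N) (hV N) N (len N) b δ _ hδ hc.le
    (by linarith [min_le_left δ 1]) d c a)

end Pool.Agent.H663Z.JE
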