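import Pool.Agent.H97Z.JE.Defs

/-! Reduction to short progressions on which the floors are polynomials. -/

set_option autoImplicit false

open Filter Finset Polynomial
open scoped BigOperators Topology

namespace Pool.Agent.H663Z.JE

open Pool.Agent.H97Z.JE

theorem exists_M (a b : ℝ) (ha : 0 < a) (hab : a < b) :
    ∃ M : ℕ, 0 < M ∧ ∀ t j : ℕ, a * ((M * t + 1 : ℕ) : ℝ) ≠ j * b := by
  have hb : 0 < b := ha.trans hab
  by_cases h : ∃ M j : ℕ, 0 < M ∧ a * M = j * b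
  · obtain ⟨M, j0, hM, e⟩ := h
    refine ⟨M, hM, fun t j hj => ?_⟩
    push_cast at hj
    have e2 : a = ((j : ℤ) - j0 * t : ℤ) * b := by
      push_cast
      linear_combination hj - t * e
    set z : ℤ := (j : ℤ) - j0 * t
    have h0 : (0 : ℝ) < z := by
      by_contra hn
      push Not at hn
      nlinarith
    have h1 : (z : ℝ) < 1 := by
      by_contra hn
      push Not at hn
      nlinarith
    have h0' : 0 < z := by exact_mod_cast h0
    have h1' : z < 1 := by exact_mod_cast h1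
    omega
  · exact ⟨1, one_pos, fun t j hj => h ⟨_, j, by omega, hj⟩⟩

theorem exists_d (k : ℕ) (c : Fin k → ℝ) (hc : Ok c) (j0 : Fin k) :
    ∃ d : ℕ, 2 ≤ d ∧ c j0 < d ∧ ∀ i, c i < c j0 → ∀ j : ℕ, c i * d ≠ j * c j0 := by
  have ex : ∀ i, ∃ M : ℕ, 0 < M ∧ (c i < c j0 →
      ∀ t j : ℕ, c i * ((M * t + 1 : ℕ) : ℝ) ≠ j * c j0) := by
    intro i
    by_cases h : c i < c j0
    · obtain ⟨M, h1, h2⟩ := exists_M (c i) (c j0) (hc.2 i).1 h
      exact ⟨M, h1, fun _ => h2⟩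
    · exact ⟨1, one_pos, fun h' => absurd h' h⟩
  choose M hM h using ex
  have hP : 1 ≤ ∏ i, M i := prod_pos fun i _ => hM i
  have hle : ⌈c j0⌉₊ + 1 ≤ (∏ i, M i) * (⌈c j0⌉₊ + 1) := Nat.le_mul_of_pos_left _ hP
  refine ⟨(∏ i, M i) * (⌈c j0⌉₊ + 1) + 1, by omega, ?_, fun i hi j => ?_⟩
  · have h1 := Nat.le_ceil (c j0)
    have h2 : ((⌈c j0⌉₊ + 1 : ℕ) : ℝ) ≤ (((∏ i, M i) * (⌈c j0⌉₊ + 1) : ℕ) : ℝ) := by
      exact_mod_cast hle
    rw [Nat.cast_add, Nat.cast_one] at h2 ⊢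
    linarith
  · obtain ⟨u, hu⟩ : M i ∣ ∏ i, M i := dvd_prod_of_mem _ (mem_univ i)
    rw [hu, mul_assoc]
    exact h i hi _ j

theorem norm_expect_le' (s : Finset ℕ) (f : ℕ → ℂ) (hf : ∀ n, ‖f n‖ ≤ 1) :
    ‖𝔼 t ∈ s, f t‖ ≤ 1 := by
  rw [expect_eq_sum_div_card, norm_div, Complex.norm_natCast]
  refine div_le_one_of_le₀ ((norm_sum_le _ _).trans ?_) (by positivity)
  calc ∑ t ∈ s, ‖f t‖ ≤ ∑ _t ∈ s, (1 : ℝ) := sum_le_sum fun t _ => hf t
    _ = _ := by simp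

theorem thm_ll (h : S_W) (hb : S_blk) : S_ll := by
  classical
  intro k c hc j0
  obtain ⟨d, hd2, hdc, hd⟩ := exists_d k c hc j0
  obtain ⟨σ, lam, jj, hσ, -, hl0, hl, hW⟩ := h k c hc j0 d hd2 hdc
  refine ⟨d, by omega, fun δ S hδ hS => ?_⟩
  have hlt : ∀ j, c j ≤ c j0 → j ≠ j0 → c j < c j0 := fun j h1 h2 =>
    lt_of_le_of_ne h1 fun e => h2 (hc.1 e)
  obtain ⟨R0, hR0⟩ := hW (univ.filter fun j => c j ≤ c j0) (by simp) (δ / 4) 1 S
    (by positivity) one_pos hS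
  refine ⟨R0, fun R hR G hG V hV hN => ?_⟩
  obtain ⟨ε1, hε1, hK⟩ := hR0 R hR
  obtain ⟨x, L, hblk, hx⟩ := hb G hG V hV δ hδ hN
  obtain ⟨q, W, y, Gd, hW0, hA, hB, hC, -⟩ := hK 1 one_pos (fun i hi => ⟨0, by
    have hi' : c i ≤ c j0 := (mem_filter.1 hi).2
    have : lam i = 0 := by
      by_cases e : i = j0
      · rw [e, hl0]
      · exact hl i (hd i (hlt i hi' e))
    simp [this, hε1.le]⟩) ℕ G x L hblk
  have hB' : ∀ᶠ N in G, ∀ r ∈ Icc 1 R, 𝔼 t ∈ range (L N), W N r t ≤ 2 :=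
    (eventually_all_finset _).2 fun r hr => (hB r hr).mono fun N hN => hN.1
  filter_upwards [hA V hV hx, hB'] with N h1 h2
  set good : ℕ → Prop := fun r => ∃ n q : ℕ,
    δ / 32 ≤ ‖𝔼 s ∈ range S, V N (n + q * s)‖ ∧ ∀ j, c j ≤ c j0 → ∃ P : ℤ[X],
      (∀ s < S, (fl (c j) (n + q * s) : ℤ) = P.eval (s : ℤ)) ∧
      (j ≠ j0 → P.natDegree < d) ∧
      (j = j0 → P.natDegree ≤ d ∧ P.coeff d ^ 2 = (r : ℤ) ^ (2 * d)) with hgood
  have h3 : ∀ r ∈ Icc 1 R, (𝔼 t ∈ range (L N), if Gd N r t then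
      W N r t * ‖𝔼 s ∈ range S, V N (x N + t + q N r * s)‖ else 0) ≤
      δ / 16 + if good r then 2 else 0 := by
    intro r hr
    by_cases hg : good r
    · rw [if_pos hg]
      refine le_trans (expect_le_expect fun t _ => ?_) ((h2 r hr).trans (by linarith))
      split_ifs
      · exact mul_le_of_le_one_right (hW0 _ _ _) (norm_expect_le' _ _ fun s => hV _ _)
      · exact hW0 _ _ _
    · rw [if_neg hg, add_zero]
      have : (𝔼 t ∈ range (L N), if Gd N r t then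
          W N r t * ‖𝔼 s ∈ range S, V N (x N + t + q N r * s)‖ else 0) ≤
          𝔼 t ∈ range (L N), W N r t * (δ / 32) := by
        refine expect_le_expect fun t _ => ?_
        split_ifs with hG
        · refine mul_le_mul_of_nonneg_left ?_ (hW0 _ _ _)
          by_contra hn
          refine hg ⟨x N + t, q N r, (not_le.1 hn).le, fun j hj => ?_⟩
          obtain ⟨P, p1, p2, p3⟩ := hC N r t hG j (by simpa using hj)
          refine ⟨P, p1, fun hne => p2 (hlt j hj hne), fun e => ⟨(p3 e).1, ?_⟩⟩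
          rw [(p3 e).2.1, mul_pow, hσ, one_mul, one_mul, ← pow_mul, mul_comm]
        · exact mul_nonneg (hW0 _ _ _) (by positivity)
      rw [← expect_mul] at this
      have h4 := mul_le_mul_of_nonneg_right (h2 r hr) (by positivity : 0 ≤ δ / 32)
      linarith
  rcases Nat.eq_zero_or_pos R with rfl | hRp
  · simp
  have hR' : (0 : ℝ) < R := by exact_mod_cast hRp
  rw [expect_eq_sum_div_card, Nat.card_Icc, Nat.add_sub_cancel, le_div_iff₀ hR'] at h1
  have h5 := h1.trans (sum_le_sum h3)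
  rw [sum_add_distrib, sum_const, Nat.card_Icc, Nat.add_sub_cancel, nsmul_eq_mul, ← sum_filter,
    sum_const, nsmul_eq_mul] at h5
  have h6 : δ / 32 * R ≤ #{r ∈ Icc 1 R | good r} := by linarith
  refine h6.trans (Nat.cast_le.2 (card_le_card_of_injOn (fun r : ℕ => (r : ℤ)) ?_ ?_))
  · intro r hr
    have hr' := mem_filter.1 (mem_coe.1 hr)
    have h7 := mem_Icc.1 hr'.1
    refine mem_coe.2 (mem_filter.2 ⟨mem_Icc.2 ⟨?_, ?_⟩, hr'.2⟩)
    · exact Int.ofNat_le.2 h7.1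
    · exact Int.ofNat_le.2 h7.2
  · intro a _ b _ e
    exact Int.ofNat_inj.1 e

end Pool.Agent.H663Z.JE
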